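import Pool.Agent.H39R2.GonP.Defs
import Pool.Agent.R388.BS.Defs
set_option autoImplicit false

/-!
# Comparison maps from the first cohomology of Goncharov's complexes to motivic cohomology
-/

namespace Pool.Agent.R388.GB

open GonP Pool.Agent.R388.BS

/-- The kernel `A_n(F)` of `δ_n` on `ℤ[P^1_F]`, `n ≥ 2`. -/
def Coc (n : ℕ) (F : Type) [Field F] : Set (ZP F) :=
  if n = 2 then A2 F else AS F (R (n - 1) F)

/-- The map `ℤ[P^1_F] → ℤ[P^1_E]`, `{x} ↦ {φ x}`, of a homomorphism of fields `φ : F → E`. -/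
noncomputable def push {F E : Type} [Field F] [Field E] (φ : F →+* E) (α : ZP F) : ZP E :=
  α.mapDomain (Option.map φ)

/-- A comparison map in degree one and weight `n`: homomorphisms `c` from `A_n(F) = ker δ_n` to
`H^1(F, n)` for all fields `F`, which depend only on the class in `B_n(F)` and are compatible with
all homomorphisms of fields. -/
structure Comparison (T : FieldCohomology) (n : ℕ) where
  c : ∀ {F : Type} [Field F], ZP F → T.H F 1 n
  add : ∀ {F : Type} [Field F] (α β : ZP F), α ∈ Coc n F → β ∈ Coc n F → c (α + β) = c α + c β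
  cls : ∀ {F : Type} [Field F] (α β : ZP F), α ∈ Coc n F → β ∈ Coc n F →
    toQuo (R n F) α = toQuo (R n F) β → c α = c β
  natural : ∀ {F E : Type} [Field F] [Field E] (φ : F →+* E) (α : ZP F), α ∈ Coc n F →
    c (push φ α) = T.map φ 1 n (c α)

/-- The comparison map `H^1(Γ(F,n) ⊗ ℚ) → H^1(F, n) ⊗ ℚ` is surjective. -/
def Comparison.Surj {T : FieldCohomology} {n : ℕ} (c : Comparison T n) (F : Type) [Field F] :
    Prop :=
  ∀ y : T.H F 1 n, ∃ N : ℕ, 0 < N ∧ ∃ α ∈ Coc n F, c.c α = N • y

/-- The homomorphism `F(t) → E(t)` of `φ : F → E`. -/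
noncomputable def mapT {F E : Type} [Field F] [Field E] (φ : F →+* E) : RatFunc F →+* RatFunc E :=
  RatFunc.mapRingHom (Polynomial.mapRingHom φ)
    (nonZeroDivisors_le_comap_nonZeroDivisors_of_injective _
      (Polynomial.map_injective φ φ.injective))

/-- There are specialisation maps `H^i(F(t), n) → H^i(F, n)` at `t = 0`, natural in `F`. -/
def Specialises (T : FieldCohomology) : Prop :=
  ∃ s : ∀ (F : Type) [Field F] (i n : ℤ), T.H (RatFunc F) i n → T.H F i n,
    (∀ (F : Type) [Field F] (i n : ℤ) (x : T.H F i n),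
      s F i n (T.map (algebraMap F (RatFunc F)) i n x) = x) ∧
    ∀ (F E : Type) [Field F] [Field E] (φ : F →+* E) (i n : ℤ) (x : T.H (RatFunc F) i n),
      s E i n (T.map (mapT φ) i n x) = T.map φ i n (s F i n x)

end Pool.Agent.R388.GB
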