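import Pool.Agent.H39R2.GonP.Bridge
import Pool.Agent.R388.GB.Defs
set_option autoImplicit false

/-!
# Homomorphisms `K(x) → M` which agree on `K`
-/

namespace Pool.Agent.R388.GB

open Polynomial H39Gon

section path

variable {K M : Type} [Field K] [Field M] (φ₀ φ₁ : RatFunc K →+* M)

/-- `P ↦ P(a + s (b - a))`, `a = φ₀ x`, `b = φ₁ x` -/
noncomputable def lineH : K[X] →+* M[X] :=
  eval₂RingHom ((C : M →+* M[X]).comp (φ₀.comp (algebraMap K (RatFunc K))))
    (C (φ₀ RatFunc.X) + X * C (φ₁ RatFunc.X - φ₀ RatFunc.X))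

theorem lineH_zero (P : K[X]) :
    (lineH φ₀ φ₁ P).eval 0 = φ₀ (algebraMap K[X] (RatFunc K) P) := by
  have h : ((evalRingHom (0 : M)).comp (lineH φ₀ φ₁)) =
      φ₀.comp (algebraMap K[X] (RatFunc K)) := by
    apply Polynomial.ringHom_ext
    · intro a
      simp [lineH, RatFunc.algebraMap_C, RatFunc.algebraMap_eq_C]
    · simp [lineH, RatFunc.algebraMap_X]
  exact congrArg (fun f => f P) h

variable {φ₀ φ₁}

theorem lineH_one (h01 : φ₀.comp (algebraMap K (RatFunc K)) = φ₁.comp (algebraMap K (RatFunc K)))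
    (P : K[X]) : (lineH φ₀ φ₁ P).eval 1 = φ₁ (algebraMap K[X] (RatFunc K) P) := by
  have h : ((evalRingHom (1 : M)).comp (lineH φ₀ φ₁)) =
      φ₁.comp (algebraMap K[X] (RatFunc K)) := by
    apply Polynomial.ringHom_ext
    · intro a
      have h1 := congrArg (fun f => f a) h01
      simp only [RingHom.comp_apply, RatFunc.algebraMap_eq_C] at h1
      simp [lineH, RatFunc.algebraMap_C, RatFunc.algebraMap_eq_C, h1]
    · simp [lineH, RatFunc.algebraMap_X]
  exact congrArg (fun f => f P) h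

variable (φ₀ φ₁)

theorem lineH_inj : Function.Injective (lineH φ₀ φ₁) := by
  rw [injective_iff_map_eq_zero]
  intro P hP
  have h := lineH_zero φ₀ φ₁ P
  rw [hP, eval_zero] at h
  exact (map_eq_zero_iff _ (RatFunc.algebraMap_injective K)).1
    ((map_eq_zero_iff _ φ₀.injective).1 h.symm)

theorem lineH_inj' : Function.Injective ((algebraMap M[X] (RatFunc M)).comp (lineH φ₀ φ₁)) :=
  (RatFunc.algebraMap_injective M).comp (lineH_inj φ₀ φ₁)

/-- `f ↦ f(a + s (b - a))` -/
noncomputable def theta : RatFunc K →+* RatFunc M :=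
  IsFractionRing.lift (A := K[X]) (K := RatFunc K) (lineH_inj' φ₀ φ₁)

theorem theta_eq (f : RatFunc K) : theta φ₀ φ₁ f =
    algebraMap M[X] (RatFunc M) (lineH φ₀ φ₁ f.num) /
      algebraMap M[X] (RatFunc M) (lineH φ₀ φ₁ f.denom) := by
  conv_lhs => rw [← f.num_div_denom]
  rw [map_div₀]
  unfold theta
  rw [IsFractionRing.lift_algebraMap, IsFractionRing.lift_algebraMap]
  rfl

theorem spec_quot {F : Type} [Field F] (t0 : F) (a b : F[X]) (hb : b.eval t0 ≠ 0) :
    spec F t0 (some (algebraMap F[X] (RatFunc F) a / algebraMap F[X] (RatFunc F) b)) =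
      some (a.eval t0 / b.eval t0) := by
  classical
  have hb0 : b ≠ 0 := by
    rintro rfl
    exact hb (by simp)
  set f : RatFunc F := algebraMap F[X] (RatFunc F) a / algebraMap F[X] (RatFunc F) b with hf
  have hA : Function.Injective (algebraMap F[X] (RatFunc F)) := IsFractionRing.injective _ _
  have hb' : algebraMap F[X] (RatFunc F) b ≠ 0 := fun h => hb0 (hA (by rw [h, map_zero]))
  have hd' : algebraMap F[X] (RatFunc F) f.denom ≠ 0 := fun h =>
    f.denom_ne_zero (hA (by rw [h, map_zero]))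
  have h1 : f.num * b = a * f.denom := by
    apply hA
    have h2 := f.num_div_denom
    rw [map_mul, map_mul]
    rw [div_eq_iff hd'] at h2
    rw [h2, hf]
    field_simp
  have h3 : f.denom ∣ b := by
    have h4 : f.denom ∣ f.num * b := by rw [h1]; exact Dvd.intro_left a rfl
    exact (f.isCoprime_num_denom.symm).dvd_of_dvd_mul_left h4
  have h5 : f.denom.eval t0 ≠ 0 := by
    intro h
    obtain ⟨c, hc⟩ := h3
    apply hb
    rw [hc, eval_mul, h, zero_mul]
  have h6 := congrArg (Polynomial.eval t0) h1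
  rw [eval_mul, eval_mul] at h6
  have h7 : spec F t0 (some f) = some (f.num.eval t0 / f.denom.eval t0) := by simp [spec, h5]
  rw [h7]
  congr 1
  rw [div_eq_div_iff h5 hb]
  exact h6

theorem spec_theta (t0 : M) (φ : RatFunc K →+* M)
    (h : ∀ P : K[X], (lineH φ₀ φ₁ P).eval t0 = φ (algebraMap K[X] (RatFunc K) P))
    (x : P1 (RatFunc K)) : spec M t0 (Option.map (theta φ₀ φ₁) x) = Option.map φ x := by
  cases x with
  | none => rfl
  | some f =>
    have hd : φ (algebraMap K[X] (RatFunc K) f.denom) ≠ 0 :=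
      (map_ne_zero φ).2 (RatFunc.algebraMap_ne_zero f.denom_ne_zero)
    rw [Option.map_some, theta_eq, spec_quot t0 _ _ (by rw [h]; exact hd), h, h, ← map_div₀,
      f.num_div_denom, Option.map_some]

theorem specZ_theta (t0 : M) (φ : RatFunc K →+* M)
    (h : ∀ P : K[X], (lineH φ₀ φ₁ P).eval t0 = φ (algebraMap K[X] (RatFunc K) P))
    (α : ZP (RatFunc K)) : specZ M t0 (rmM (theta φ₀ φ₁) α) = rmM φ α := by
  induction α using Finsupp.induction_linear with
  | zero => simp
  | add a b ha hb => rw [map_add, map_add, ha, hb, map_add]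
  | single x c =>
    rw [rmM_single, specZ, Finsupp.lmapDomain_apply, Finsupp.mapDomain_single,
      spec_theta φ₀ φ₁ t0 φ h, rmM_single]

theorem key (h01 : φ₀.comp (algebraMap K (RatFunc K)) = φ₁.comp (algebraMap K (RatFunc K)))
    (A' : Submodule ℤ (ZP (RatFunc M))) (α : ZP (RatFunc K))
    (hα : rmM (theta φ₀ φ₁) α ∈ A') : rmM φ₀ α - rmM φ₁ α ∈ relSpan M A' := by
  have h2 : specZ M 0 (rmM (theta φ₀ φ₁) α) - specZ M 1 (rmM (theta φ₀ φ₁) α) ∈
      relSpan M A' := Submodule.subset_span (Or.inr ⟨_, hα, rfl⟩)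
  rwa [specZ_theta φ₀ φ₁ 0 φ₀ (lineH_zero φ₀ φ₁),
    specZ_theta φ₀ φ₁ 1 φ₁ (fun P => lineH_one h01 P)] at h2

end path

/-! ### the version for the other set of definitions -/

theorem coc_two (F : Type) [Field F] :
    Coc 2 F = (LinearMap.ker (H39Gon.delta2 F) : Set (ZP F)) := by
  unfold Coc
  rw [if_pos rfl]
  exact GonP.A2_eq

theorem coc_three (m : ℕ) (F : Type) [Field F] :
    Coc (m + 3) F = (LinearMap.ker (H39Gon.deltaS F (H39Gon.R (m + 2) F)) : Set (ZP F)) := by
  unfold Coc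
  rw [if_neg (by omega)]
  exact GonP.AS_eq (H39Gon.R (m + 2) F) _ (GonP.R_eq m)

theorem mem_coc_push {n : ℕ} (hn : 2 ≤ n) {F E : Type} [Field F] [Field E] (φ : F →+* E)
    {α : ZP F} (hα : α ∈ Coc n F) : push φ α ∈ Coc n E := by
  obtain ⟨m, rfl⟩ := Nat.exists_eq_add_of_le' hn
  rcases m with _ | m
  · change α ∈ Coc 2 F at hα
    change push φ α ∈ Coc 2 E
    rw [coc_two] at hα ⊢
    change rmM φ α ∈ LinearMap.ker (H39Gon.delta2 E)
    rw [LinearMap.mem_ker, rm_delta2, LinearMap.mem_ker.1 hα, map_zero]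
  · change α ∈ Coc (m + 3) F at hα
    change push φ α ∈ Coc (m + 3) E
    rw [coc_three] at hα ⊢
    change rmM φ α ∈ LinearMap.ker (H39Gon.deltaS E (H39Gon.R (m + 2) E))
    rw [LinearMap.mem_ker, rm_deltaS φ (H39Gon.R (m + 2) F) (H39Gon.R (m + 2) E)
      (fun s hs => R_map φ m s hs), LinearMap.mem_ker.1 hα, map_zero]

theorem toQuo_eq_of_mem {A : Type} [AddCommGroup A] (S : AddSubgroup A) (a b : A)
    (h : a - b ∈ S) : GonP.toQuo S a = GonP.toQuo S b := by
  have h1 : (QuotientAddGroup.mk a : A ⧸ S) = QuotientAddGroup.mk b := by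
    rw [QuotientAddGroup.eq, ← S.neg_mem_iff]
    have : -(-a + b) = a - b := by abel
    rw [this]
    exact h
  exact h1

/-- Two homomorphisms `K(x) → M` which agree on `K` induce the same map from `A_n(K(x))` to
`B_n(M)`. -/
theorem push_eq {n : ℕ} (hn : 2 ≤ n) {K M : Type} [Field K] [Field M] (φ₀ φ₁ : RatFunc K →+* M)
    (h01 : φ₀.comp (algebraMap K (RatFunc K)) = φ₁.comp (algebraMap K (RatFunc K)))
    {α : ZP (RatFunc K)} (hα : α ∈ Coc n (RatFunc K)) :
    GonP.toQuo (GonP.R n M) (push φ₀ α) = GonP.toQuo (GonP.R n M) (push φ₁ α) := by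
  apply toQuo_eq_of_mem
  obtain ⟨m, rfl⟩ := Nat.exists_eq_add_of_le' hn
  have h1 := mem_coc_push hn (theta φ₀ φ₁) hα
  rw [GonP.R_eq]
  change rmM φ₀ α - rmM φ₁ α ∈ H39Gon.R (m + 2) M
  rcases m with _ | m
  · change push (theta φ₀ φ₁) α ∈ Coc 2 _ at h1
    rw [coc_two] at h1
    exact key φ₀ φ₁ h01 (LinearMap.ker (H39Gon.delta2 (RatFunc M))) α h1
  · change push (theta φ₀ φ₁) α ∈ Coc (m + 3) _ at h1
    rw [coc_three] at h1
    exact key φ₀ φ₁ h01 _ α h1

end Pool.Agent.R388.GB
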