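import Pool.Agent.R388.GB.Key
import Pool.Agent.R388.BS.Final
set_option autoImplicit false

/-!
# Surjectivity of the comparison map in degree one
-/

namespace Pool.Agent.R388.GB

open Polynomial IntermediateField Pool.Agent.R388.BS

variable {T : FieldCohomology} {n : ℕ} (c : Comparison T n)

section basic

variable {c}

theorem Surj.of_equiv {F E : Type} [Field F] [Field E] (hn : 2 ≤ n) (e : F ≃+* E)
    (h : c.Surj F) : c.Surj E := by
  intro y
  obtain ⟨N, hN, α, hα, h1⟩ := h (T.map (e.symm : E →+* F) 1 n y)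
  refine ⟨N, hN, push (e : F →+* E) α, mem_coc_push hn _ hα, ?_⟩
  rw [c.natural _ _ hα, h1, map_nsmul, ← T.map_comp]
  have h2 : ((e : F →+* E).comp (e.symm : E →+* F)) = RingHom.id E := by
    ext a; simp
  rw [h2, T.map_id]

/-- the classes in the image of the comparison map of `K(x)` are constant -/
theorem const_of_coc (hn : 2 ≤ n) (hS : Specialises T) {K : Type} [Field K]
    {α : GonP.ZP (RatFunc K)} (hα : α ∈ Coc n (RatFunc K)) :
    c.c α ∈ Set.range (T.map (algebraMap K (RatFunc K)) 1 n) := by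
  obtain ⟨s, hs1, hs2⟩ := hS
  set φ₀ : RatFunc K →+* RatFunc (RatFunc K) := algebraMap (RatFunc K) (RatFunc (RatFunc K))
  set φ₁ : RatFunc K →+* RatFunc (RatFunc K) := mapT (algebraMap K (RatFunc K)) with hφ₁
  have h01 : φ₀.comp (algebraMap K (RatFunc K)) = φ₁.comp (algebraMap K (RatFunc K)) := by
    apply RingHom.ext
    intro a
    rw [RingHom.comp_apply, RingHom.comp_apply, hφ₁]
    have h1 : algebraMap K (RatFunc K) a = algebraMap K[X] (RatFunc K) (C a) / algebraMap K[X] (RatFunc K) 1 := by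
      rw [map_one, div_one, RatFunc.algebraMap_C, RatFunc.algebraMap_eq_C]
    conv_rhs => rw [h1]
    have h2 := RatFunc.map_apply_div (Polynomial.mapRingHom (algebraMap K (RatFunc K)))
      (nonZeroDivisors_le_comap_nonZeroDivisors_of_injective _
      (Polynomial.map_injective (algebraMap K (RatFunc K)) (algebraMap K (RatFunc K)).injective)) (C a) 1
    refine Eq.trans ?_ h2.symm
    rw [map_one, map_one, div_one, Polynomial.coe_mapRingHom, Polynomial.map_C,
      RatFunc.algebraMap_C]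
    rfl
  have h1 : c.c (push φ₀ α) = c.c (push φ₁ α) :=
    c.cls _ _ (mem_coc_push hn φ₀ hα) (mem_coc_push hn φ₁ hα) (push_eq hn φ₀ φ₁ h01 hα)
  rw [c.natural _ _ hα, c.natural _ _ hα] at h1
  have h2 := congrArg (s (RatFunc K) 1 n) h1
  rw [hs1, hs2] at h2
  exact ⟨s K 1 n (c.c α), h2.symm⟩

/-- (A) -/
theorem zero_of_surj (hT : IsMotivic T) (hn : 2 ≤ n) (hS : Specialises T) {K : Type} [Field K]
    (h : c.Surj (RatFunc K)) (π : K[X]) [Fact (Irreducible π)] :
    Zero T (AdjoinRoot π) 0 (n - 1) := by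
  intro x
  have e1 : (1 : ℤ) - 1 = 0 := by norm_num
  obtain ⟨y, rfl⟩ := hT.surjective π 1 n x
  obtain ⟨N, hN, α, hα, h1⟩ := h y
  have h2 := (hT.exact 1 n (c.c α)).2 (const_of_coc hn hS hα) π
  rw [h1, map_nsmul] at h2
  exact hT.torsionFree (1 - 1) (n - 1) (by omega) N hN.ne' _ h2

/-- (B) -/
theorem surj_ratFunc (hT : IsMotivic T) (hn : 2 ≤ n) {K : Type} [Field K]
    (h : c.Surj K) (h' : ∀ (π : K[X]) [Fact (Irreducible π)], Zero T (AdjoinRoot π) 0 (n - 1)) :
    c.Surj (RatFunc K) := by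
  intro y
  obtain ⟨z, rfl⟩ := (hT.exact 1 n y).1 fun π _ => h' π _
  obtain ⟨N, hN, α, hα, h1⟩ := h z
  refine ⟨N, hN, push (algebraMap K (RatFunc K)) α, mem_coc_push hn _ hα, ?_⟩
  rw [c.natural _ _ hα, h1, map_nsmul]

end basic

theorem exists_factor {K L : Type} [Field K] [Field L] (g : K →+* L) (π : K[X])
    [hπ : Fact (Irreducible π)] :
    ∃ (ρ : L[X]) (_ : Fact (Irreducible ρ)), Nonempty (AdjoinRoot π →+* AdjoinRoot ρ) := by
  have h1 : π.map g ≠ 0 := (Polynomial.map_ne_zero_iff g.injective).2 hπ.out.ne_zero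
  have h2 : ¬ IsUnit (π.map g) := by
    rw [Polynomial.isUnit_map]
    exact hπ.out.not_isUnit
  obtain ⟨ρ, hρ, q, hq⟩ := WfDvdMonoid.exists_irreducible_factor h2 h1
  refine ⟨ρ, ⟨hρ⟩, ⟨AdjoinRoot.lift ((AdjoinRoot.of ρ).comp g) (AdjoinRoot.root ρ) ?_⟩⟩
  rw [← Polynomial.eval₂_map, hq, eval₂_mul, AdjoinRoot.eval₂_root, zero_mul]

section fields

variable {c} {k : Type} [Field k]

/-- `k(t_0, ..., t_(m-1))(t) = k(t_0, ..., t_m)` -/
theorem exists_ratEquiv (m : ℕ) : Nonempty (RatFunc (Kf k m) ≃+* Kf k (m + 1)) := by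
  refine ⟨RingEquiv.ofBijective (ratHom k m) ⟨(ratHom k m).injective, fun y => ?_⟩⟩
  refine ⟨succHom k m y, ?_⟩
  apply Subtype.ext
  simp [ratHom, succHom]
  rfl

/-- from the residue fields of one field to all fields -/
theorem zero_fg (hT : IsMotivic T) {w : ℤ} {r : ℕ} {L : Type} [Field L] (g : Kf k r →+* L)
    (h : ∀ (ρ : L[X]) [Fact (Irreducible ρ)], Zero T (AdjoinRoot ρ) 0 w)
    {F : Type} [Field F] [Algebra k F] [Algebra.EssFiniteType k F] (hr : Algebra.trdeg k F ≤ r) :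
    Zero T F 0 w := by
  obtain ⟨m, hm, K, _, f, π, _, ⟨φ⟩⟩ := exists_model hr
  obtain ⟨ρ, _, ⟨ψ⟩⟩ := exists_factor ((g.comp (inclHom k hm)).comp f) π
  exact (h ρ).of_hom hT le_rfl (ψ.comp φ)

/-- bounded transcendence degree -/
theorem zero_of_surj_bounded (hT : IsMotivic T) (hn : 2 ≤ n) (hS : Specialises T) {r : ℕ}
    (h : c.Surj (Kf k (r + 1))) {F : Type} [Field F] [Algebra k F] (hr : Algebra.trdeg k F ≤ r) :
    Zero T F 0 (n - 1) := by
  obtain ⟨e⟩ := exists_ratEquiv (k := k) r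
  have h1 := Surj.of_equiv hn e.symm h
  refine zero_of_fg (F := k) hT fun S => ?_
  have h2 : Algebra.EssFiniteType k (adjoin k (S : Set F)) :=
    essFiniteType_iff.2 (fg_adjoin_of_finite S.finite_toSet)
  refine zero_fg hT (RingHom.id (Kf k r)) (fun ρ _ => zero_of_surj hT hn hS h1 ρ)
    (le_trans ?_ hr)
  exact trdeg_le_of_injective (adjoin k (S : Set F)).val (adjoin k (S : Set F)).val.injective

theorem surj_Kf (hT : IsMotivic T) (hn : 2 ≤ n) (hk : c.Surj k) {r : ℕ}
    (h : ∀ (F : Type) [Field F] [Algebra k F], Algebra.trdeg k F ≤ r → Zero T F 0 (n - 1)) :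
    ∀ m ≤ r + 1, c.Surj (Kf k m) := by
  intro m
  induction m with
  | zero =>
    intro _
    have h0 : Kf k 0 = ⊥ := by
      unfold Kf
      rw [show Set.Iio 0 = (∅ : Set ℕ) by ext; simp, Set.image_empty, adjoin_empty]
    exact Surj.of_equiv hn ((equivOfEq h0).trans (botEquiv k (Rat k))).symm.toRingEquiv hk
  | succ m ih =>
    intro hm
    obtain ⟨e⟩ := exists_ratEquiv (k := k) m
    refine Surj.of_equiv hn e (surj_ratFunc hT hn (ih (by omega)) fun π _ => ?_)
    refine h (AdjoinRoot π) ?_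
    have hfin : FiniteDimensional (Kf k m) (AdjoinRoot π) :=
      (AdjoinRoot.powerBasis (Fact.out : Irreducible π).ne_zero).finite
    have halg : Algebra.IsAlgebraic (Kf k m) (AdjoinRoot π) := inferInstance
    rw [← trdeg_add_eq k (Kf k m) (A := AdjoinRoot π), trdeg_eq_zero_iff.2 halg, add_zero]
    refine (trdeg_Kf k m).trans ?_
    exact_mod_cast (by omega : m ≤ r)

open scoped algebraAdjoinAdjoin in
/-- `k(t_0, t_1, ...) = K'(t)` with `K' = k(t_1, t_2, ...)` -/
theorem exists_shift (k : Type) [Field k] : ∃ (L : Type) (_ : Field L) (_ : Rat k →+* L),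
    Nonempty (RatFunc L ≃+* Rat k) := by
  let v : ℕ → Rat k := fun j => vr k (j + 1)
  have hv : AlgebraicIndependent k v :=
    (vr_indep k).comp (fun j => j + 1) (fun a b h => by simpa using h)
  have hr : Set.range v = vr k '' Set.Ioi 0 := by
    ext a
    constructor
    · rintro ⟨i, rfl⟩
      exact ⟨i + 1, Nat.succ_pos i, rfl⟩
    · rintro ⟨j, hj, rfl⟩
      obtain ⟨i, rfl⟩ := Nat.exists_eq_succ_of_ne_zero (Nat.pos_iff_ne_zero.1 hj)
      exact ⟨i, rfl⟩
  let L : IntermediateField k (Rat k) := adjoin k (vr k '' Set.Ioi 0)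
  have e1 : Rat k ≃ₐ[k] adjoin k (Set.range v) := hv.aevalEquivField
  rw [hr] at e1
  have ht : Transcendental L (vr k 0) := by
    have h := (vr_indep k).transcendental_adjoin (s := Set.Ioi 0) (i := 0) (by simp)
    intro h1
    exact h ((IsFractionRing.isAlgebraic_iff (Algebra.adjoin k (vr k '' Set.Ioi 0)) L
      (Rat k)).2 h1)
  have htop : ∀ a : Rat k, a ∈ L⟮vr k 0⟯ := by
    intro a
    have h1 := mem_adjoin_range k a
    have h2 : adjoin k (Set.range (vr k)) ≤ (L⟮vr k 0⟯).restrictScalars k := by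
      rw [adjoin_le_iff]
      rintro _ ⟨j, rfl⟩
      rcases j with _ | j
      · exact mem_adjoin_simple_self L (vr k 0)
      · have h3 : vr k (j + 1) ∈ L := subset_adjoin k _ ⟨j + 1, Nat.succ_pos j, rfl⟩
        exact IntermediateField.algebraMap_mem (L⟮vr k 0⟯) (⟨vr k (j + 1), h3⟩ : L)
    exact h2 h1
  let e2 := RatFunc.algEquivOfTranscendental (K := L) (vr k 0) ht
  have h3 : Function.Bijective ((algebraMap (L⟮vr k 0⟯) (Rat k)).comp
      (e2 : RatFunc L →+* L⟮vr k 0⟯)) := by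
    refine ⟨RingHom.injective _, fun a => ⟨e2.symm ⟨a, htop a⟩, ?_⟩⟩
    simp
  exact ⟨L, inferInstance, e1.toRingEquiv.toRingHom, ⟨RingEquiv.ofBijective _ h3⟩⟩

/-- one field -/
theorem zero_of_surj_Rat (hT : IsMotivic T) (hn : 2 ≤ n) (hS : Specialises T)
    (h : c.Surj (Rat k)) {F : Type} [Field F] [Algebra k F] : Zero T F 0 (n - 1) := by
  obtain ⟨L, _, g, ⟨e⟩⟩ := exists_shift k
  have h1 := Surj.of_equiv hn e.symm h
  refine zero_of_fg (F := k) hT fun S => ?_
  have h2 : Algebra.EssFiniteType k (adjoin k (S : Set F)) :=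
    essFiniteType_iff.2 (fg_adjoin_of_finite S.finite_toSet)
  obtain ⟨r, hr⟩ := Cardinal.lt_aleph0.1 (trdeg_lt_aleph0 k (adjoin k (S : Set F)))
  exact zero_fg hT (g.comp (algebraMap (Kf k r) (Rat k)))
    (fun ρ _ => zero_of_surj hT hn hS h1 ρ) hr.le

theorem surj_Rat (hT : IsMotivic T) (hn : 2 ≤ n) (hk : c.Surj k)
    (h : ∀ (F : Type) [Field F] [Algebra k F], Zero T F 0 (n - 1)) : c.Surj (Rat k) := by
  intro y
  obtain ⟨S, z, rfl⟩ := hT.defined (F := k) 1 n y
  obtain ⟨m, hm⟩ := exists_mem_Kf k S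
  have h1 : adjoin k (S : Set (Rat k)) ≤ Kf k m := adjoin_le_iff.2 hm
  obtain ⟨N, hN, α, hα, h2⟩ := surj_Kf (r := m) hT hn hk (fun F _ _ _ => h F) m (by omega)
    (T.map (inclusion h1).toRingHom 1 n z)
  refine ⟨N, hN, push (algebraMap (Kf k m) (Rat k)) α, mem_coc_push hn _ hα, ?_⟩
  rw [c.natural _ _ hα, h2, map_nsmul, ← T.map_comp]
  rfl

end fields

end Pool.Agent.R388.GB
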